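import Pool.Agent.H62.LP.T1
import Pool.Agent.H62.LP.T2

/-!
# Loop percolation: the gluing lemma
-/

set_option autoImplicit false

open MeasureTheory ProbabilityTheory Filter Topology
open scoped ENNReal NNReal

namespace Pool.Agent.H61.LP

open Pool.Agent.H62.LP

instance countLp : Countable (Cycle V3) := by
  unfold Cycle
  infer_instance

lemma nm_le_iff {d : ℕ} (x : Vt d) (r : ℕ) : nm x ≤ r ↔ ∀ i, (x i).natAbs ≤ r := by
  unfold nm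
  simp [Finset.sup_le_iff]

lemma le_nm {d : ℕ} (x : Vt d) (i : Fin d) : (x i).natAbs ≤ nm x :=
  (nm_le_iff x _).1 le_rfl i

lemma nm_add_le {d : ℕ} (x y : Vt d) : nm (x + y) ≤ nm x + nm y := by
  rw [nm_le_iff]
  intro i
  have h1 := le_nm x i
  have h2 := le_nm y i
  have h3 : (x + y) i = x i + y i := rfl
  rw [h3]
  exact (Int.natAbs_add_le _ _).trans (add_le_add h1 h2)

/-- translation of loops -/
def shE (z : V3) : Lp ≃ Lp where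
  toFun c := c.map (· + z)
  invFun c := c.map (· - z)
  left_inv c := by
    induction c using Quotient.inductionOn' with
    | _ l => 
      change ((List.map (· - z) (List.map (· + z) l) : List V3) : Cycle V3) = (l : Cycle V3)
      rw [List.map_map]
      have : ((· - z) ∘ (· + z) : V3 → V3) = id := by
        funext x
        simp
      rw [this, List.map_id]
  right_inv c := by
    induction c using Quotient.inductionOn' with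
    | _ l => 
      change ((List.map (· + z) (List.map (· - z) l) : List V3) : Cycle V3) = (l : Cycle V3)
      rw [List.map_map]
      have : ((· + z) ∘ (· - z) : V3 → V3) = id := by
        funext x
        simp
      rw [this, List.map_id]

lemma mem_shE (z : V3) (c : Lp) (u : V3) : u ∈ shE z c ↔ ∃ v ∈ c, v + z = u := by
  change u ∈ c.map (· + z) ↔ _
  rw [Cycle.mem_map]

lemma ins_mono {z z' : V3} {r r' : ℕ} {S T : Set Lp} (hST : S ⊆ T)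
    (hr : ∀ u : V3, nm (u - z) ≤ r → nm (u - z') ≤ r') : Ins z r S ⊆ Ins z' r' T := by
  rintro c ⟨hc, hu⟩
  exact ⟨hST hc, fun x hx => hr x (hu x hx)⟩

lemma conn_mono {S T : Set Lp} (hST : S ⊆ T) {x y : V3} (h : Conn S x y) : Conn T x y := by
  refine Relation.ReflTransGen.mono ?_ x y h
  rintro u v ⟨c, hc, h1, h2⟩
  exact ⟨c, hST hc, h1, h2⟩

lemma conn_symm {S : Set Lp} {x y : V3} (h : Conn S x y) : Conn S y x := by
  induction h with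
  | refl => exact Relation.ReflTransGen.refl
  | tail _ h2 ih =>
    obtain ⟨c, hc, h1, h2⟩ := h2
    exact Relation.ReflTransGen.head ⟨c, hc, h2, h1⟩ ih

lemma conn_step {S : Set Lp} {c : Lp} (hc : c ∈ S) {x y : V3} (hx : x ∈ c) (hy : y ∈ c) :
    Conn S x y := Relation.ReflTransGen.single ⟨c, hc, hx, hy⟩

/-- the deterministic part -/
lemma lk_of {M n : ℕ} {κ : ℝ≥0} {z x₁ x₂ : V3} {K₁ K₂ : Set V3} {S₁ S₂ S₃ S : Set Lp} {c₁ c₂ c₃ : Lp}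
    (h1 : FatAt M κ 1 x₁ n K₁ S₁ c₁) (h2 : FatAt M κ (-1) x₂ n K₂ S₂ c₂)
    (hx1 : nm (x₁ - z) ≤ 2 * n) (hx2 : nm (x₂ - z) ≤ 2 * n)
    (hc3 : c₃ ∈ S₃) (hin : ∀ u ∈ c₃, nm (u - z) ≤ M * n) {u₁ u₂ : V3} (hu1 : u₁ ∈ c₃)
    (hu1' : u₁ ∈ c₁) (hu2 : u₂ ∈ c₃) (hu2' : u₂ ∈ c₂) (hS1 : S₁ ⊆ S) (hS2 : S₂ ⊆ S)
    (hS3 : S₃ ⊆ S) : Lk z ((M + 2) * n) K₁ K₂ S := by
  obtain ⟨hi1, -, a, ha, b, hb, hab⟩ := h1
  obtain ⟨hi2, -, a', ha', b', hb', hab'⟩ := h2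
  have key : ∀ x : V3, nm (x - z) ≤ 2 * n → ∀ u : V3, nm (u - x) ≤ M * n →
      nm (u - z) ≤ (M + 2) * n := by
    intro x hx u hu
    have h := nm_add_le (u - x) (x - z)
    have e : u - x + (x - z) = u - z := by abel
    rw [e] at h
    calc nm (u - z) ≤ M * n + 2 * n := h.trans (add_le_add hu hx)
      _ = (M + 2) * n := by ring
  have m1 : Ins x₁ (M * n) S₁ ⊆ Ins z ((M + 2) * n) S := ins_mono hS1 (key x₁ hx1)
  have m2 : Ins x₂ (M * n) S₂ ⊆ Ins z ((M + 2) * n) S := ins_mono hS2 (key x₂ hx2)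
  have m3 : c₃ ∈ Ins z ((M + 2) * n) S := by
    refine ⟨hS3 hc3, fun u hu => (hin u hu).trans ?_⟩
    exact Nat.mul_le_mul_right _ (by omega)
  refine ⟨a, ha, a', ha', ?_⟩
  refine (conn_mono m1 hab).trans ((conn_step (m1 hi1) hb hu1').trans ?_)
  refine (conn_step m3 hu1 hu2).trans ((conn_step (m2 hi2) hu2' hb').trans ?_)
  exact conn_symm (conn_mono m2 hab')

/-- the support of a fat measure -/
lemma supp_w {n : ℕ} {κ : ℝ≥0} {z x₁ : V3} {s : ℤ} {c₁ : Lp} {w : V3 → ℝ≥0∞}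
    (hw : FatW κ n {x | x ∈ c₁ ∧ x - x₁ ∈ Rg s n} w) (hx1 : nm (x₁ - z) ≤ 2 * n) {x : V3}
    (hx : w (x + z) ≠ 0) : x + z ∈ c₁ ∧ nm (x - cen s n) ≤ 3 * n := by
  have h1 : x + z ∈ {x | x ∈ c₁ ∧ x - x₁ ∈ Rg s n} := by
    by_contra h
    exact hx (hw.1 _ h)
  refine ⟨h1.1, ?_⟩
  have h2 : nm (x + z - x₁ - cen s n) ≤ n := h1.2
  have e : x - cen s n = (x + z - x₁ - cen s n) + (x₁ - z) := by abel
  rw [e]
  refine (nm_add_le _ _).trans ?_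
  omega

lemma nm_cen (s : ℤ) (hs : s = 1 ∨ s = -1) (n : ℕ) : nm (cen s n) ≤ 8 * n := by
  rw [nm_le_iff]
  intro i
  unfold cen
  by_cases h : i = 0
  · subst h
    rw [Pi.single_eq_same]
    rcases hs with rfl | rfl <;> omega
  · rw [Pi.single_eq_of_ne h]
    simp

open Classical in
/-- the loops inside `B(z, M n)` which visit both supports -/
def PP (M n : ℕ) (z : V3) (w₁ w₂ : V3 → ℝ≥0∞) : Set Lp :=
  {c | (∀ x ∈ c, nm (x - z) ≤ M * n) ∧ (∃ x ∈ c, w₁ x ≠ 0) ∧ ∃ x ∈ c, w₂ x ≠ 0}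

open Classical in
lemma sec_mu {κ c₃ : ℝ≥0} {M : ℕ} (hTRL : T_TRL) (hMUS : T_MUS) (hGTR : T_GTR)
    (h3 : ∀ (n : ℕ), 1 ≤ n → ∀ w₁ w₂ : V3 → ℝ≥0∞, (∀ x, w₁ x ≠ 0 → x ∈ Bl 0 (20 * n)) →
    (∀ x, w₂ x ≠ 0 → x ∈ Bl 0 (20 * n)) → (∀ x y, w₁ x ≠ 0 → w₂ y ≠ 0 → n ≤ nm (x - y)) →
    mass w₁ = κ * n → mass w₂ = κ * n → (∀ x, pot w₁ x ≤ 1) → (∀ x, pot w₂ x ≤ 1) →
    (c₃ : ℝ≥0∞) ≤ ∑' l : List V3, if (∀ x ∈ l, x ∈ Bl 0 (M * n)) ∧ (∃ x ∈ l, w₁ x ≠ 0) ∧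
      (∃ x ∈ l, w₂ x ≠ 0) then lw l else 0)
    {n : ℕ} (hn : 1 ≤ n) {z x₁ x₂ : V3} {c₁ c₂ : Lp} {w₁ w₂ : V3 → ℝ≥0∞}
    (hw1 : FatW κ n {x | x ∈ c₁ ∧ x - x₁ ∈ Rg 1 n} w₁)
    (hw2 : FatW κ n {x | x ∈ c₂ ∧ x - x₂ ∈ Rg (-1) n} w₂)
    (hx1 : nm (x₁ - z) ≤ 2 * n) (hx2 : nm (x₂ - z) ≤ 2 * n) :
    (c₃ : ℝ≥0∞) ≤ ∑' c : Lp, mu c * (if c ∈ PP M n z w₁ w₂ then 1 else 0) := by
  have hb : ∀ (s : ℤ), (s = 1 ∨ s = -1) → ∀ x : V3, nm (x - cen s n) ≤ 3 * n →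
      x ∈ Bl 0 (20 * n) := by
    intro s hs x hx
    change nm (x - 0) ≤ 20 * n
    have e : x - 0 = (x - cen s n) + cen s n := by abel
    rw [e]
    refine (nm_add_le _ _).trans ?_
    have := nm_cen s hs n
    omega
  have hm : ∀ w : V3 → ℝ≥0∞, mass (fun x => w (x + z)) = mass w := fun w =>
    (Equiv.addRight z).tsum_eq w
  have hp : ∀ (w : V3 → ℝ≥0∞) (x : V3), pot (fun x => w (x + z)) x = pot w (x + z) := by
    intro w x
    unfold pot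
    rw [← (Equiv.addRight z).tsum_eq (fun y => Gr (x + z) y * w y)]
    refine tsum_congr fun y => ?_
    change Gr x y * w (y + z) = Gr (x + z) (y + z) * w (y + z)
    rw [(hGTR x y z).1]
  have h := h3 n hn (fun x => w₁ (x + z)) (fun x => w₂ (x + z))
    (fun x hx => hb 1 (Or.inl rfl) x (supp_w hw1 hx1 hx).2)
    (fun x hx => hb (-1) (Or.inr rfl) x (supp_w hw2 hx2 hx).2)
    (by
      intro x y hx hy
      have a1 := (nm_le_iff _ _).1 (supp_w hw1 hx1 hx).2 0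
      have a2 := (nm_le_iff _ _).1 (supp_w hw2 hx2 hy).2 0
      have a3 := le_nm (x - y) 0
      have b1 : (x - cen 1 n) 0 = x 0 - 8 * 1 * n := by
        change x 0 - cen 1 n 0 = _
        unfold cen
        rw [Pi.single_eq_same]
      have b2 : (y - cen (-1) n) 0 = y 0 - 8 * (-1) * n := by
        change y 0 - cen (-1) n 0 = _
        unfold cen
        rw [Pi.single_eq_same]
      have b3 : (x - y) 0 = x 0 - y 0 := rfl
      rw [b1] at a1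
      rw [b2] at a2
      rw [b3] at a3
      omega)
    (by rw [hm]; exact hw1.2.1) (by rw [hm]; exact hw2.2.1)
    (fun x => by rw [hp]; exact hw1.2.2 _) (fun x => by rw [hp]; exact hw2.2.2 _)
  refine h.trans ?_
  rw [← (shE z).tsum_eq (fun c : Lp => mu c * (if c ∈ PP M n z w₁ w₂ then 1 else 0))]
  have e1 : ∀ c : Lp, mu (shE z c) = mu c := fun c => (hTRL 3 z).1 c
  simp only [e1]
  rw [(hMUS 3).1 (fun c : Lp => if shE z c ∈ PP M n z w₁ w₂ then 1 else 0)]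
  refine ENNReal.tsum_le_tsum fun l => ?_
  split_ifs with h1 h2 h2
  · simp
  · exfalso
    apply h2
    refine ⟨?_, ?_, ?_⟩
    · intro x hx
      obtain ⟨v, hv, rfl⟩ := (mem_shE _ _ _).1 hx
      have : nm (v - 0) ≤ M * n := h1.1 v hv
      simpa using this
    · obtain ⟨x, hx, hx'⟩ := h1.2.1
      exact ⟨x + z, (mem_shE _ _ _).2 ⟨x, hx, rfl⟩, hx'⟩
    · obtain ⟨x, hx, hx'⟩ := h1.2.2
      exact ⟨x + z, (mem_shE _ _ _).2 ⟨x, hx, rfl⟩, hx'⟩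
  · exact zero_le
  · exact zero_le

open Classical in
lemma sec_prob (hVOI : T_VOI) (hMUS : T_MUS) {δ c₃ : ℝ≥0} {M n : ℕ} {z : V3}
    {w₁ w₂ : V3 → ℝ≥0∞}
    (h : (c₃ : ℝ≥0∞) ≤ ∑' c : Lp, mu c * (if c ∈ PP M n z w₁ w₂ then 1 else 0)) :
    ENNReal.ofReal (1 - Real.exp (-(δ * c₃ : ℝ))) ≤
      soup 3 δ {N | ∃ c ∈ PP M n z w₁ w₂, 1 ≤ N c} := by
  refine (hVOI Lp (inten 3 δ) (PP M n z w₁ w₂) (δ * c₃) (by positivity)).1 ?_
  have e : ∀ c : Lp, (if c ∈ PP M n z w₁ w₂ then (inten 3 δ c : ℝ≥0∞) else 0) =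
      (δ : ℝ≥0∞) * (mu c * (if c ∈ PP M n z w₁ w₂ then 1 else 0)) := by
    intro c
    split_ifs
    · unfold inten
      rw [ENNReal.coe_mul, ENNReal.coe_toNNReal ((hMUS 3).2 c), mul_one]
    · simp
  simp only [e]
  rw [ENNReal.tsum_mul_left, ENNReal.ofReal_mul (by positivity), ENNReal.ofReal_coe_nnreal,
    ENNReal.ofReal_coe_nnreal]
  gcongr

/-- sums of three independent soups -/
lemma three (hADD : T_ADD) (ε : ℝ≥0) (L : Set (Lp → ℕ)) (hL : MeasurableSet L)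
    (E₁ E₂ : Set (Lp → ℕ)) (a b : ℝ≥0∞) (h1 : a ≤ soup 3 (ε / 3) E₁) (h2 : a ≤ soup 3 (ε / 3) E₂)
    (h : ∀ N₁ ∈ E₁, ∀ N₂ ∈ E₂,
      b ≤ soup 3 (ε / 3) {N₃ | (fun c => (N₁ c + N₂ c) + N₃ c) ∈ L}) :
    a * a * b ≤ soup 3 ε L := by
  set q : Lp → ℝ≥0 := inten 3 (ε / 3) with hq
  have hs : soup 3 (ε / 3) = pois q := rfl
  rw [hs] at h1 h2 h
  have e1 : soup 3 ε = pois (fun c => (q c + q c) + q c) := by
    unfold soup
    congr 1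
    funext c
    rw [hq]
    unfold inten
    have : ε = ε / 3 + ε / 3 + ε / 3 := by
      rw [← NNReal.coe_inj]
      push_cast
      ring
    conv_lhs => rw [this]
    ring
  have m1 : Measurable (fun (p : (Lp → ℕ) × (Lp → ℕ)) (c : Lp) => p.1 c + p.2 c) := by
    fun_prop
  rw [e1, ← hADD Lp (fun c => q c + q c) q, Measure.map_apply m1 hL]
  have hL' : MeasurableSet ((fun (p : (Lp → ℕ) × (Lp → ℕ)) (c : Lp) => p.1 c + p.2 c) ⁻¹' L) :=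
    m1 hL
  rw [Measure.prod_apply hL']
  set F : (Lp → ℕ) → ℝ≥0∞ := fun N => pois q (Prod.mk N ⁻¹'
    ((fun (p : (Lp → ℕ) × (Lp → ℕ)) (c : Lp) => p.1 c + p.2 c) ⁻¹' L)) with hF
  have hFm : Measurable F := measurable_measure_prodMk_left hL'
  have e2 : a * a ≤ pois (fun c => q c + q c) {N | b ≤ F N} := by
    have hms : MeasurableSet {N | b ≤ F N} := hFm measurableSet_Ici
    rw [← hADD Lp q q, Measure.map_apply m1 hms]
    calc a * a ≤ pois q E₁ * pois q E₂ := by gcongr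
      _ = ((pois q).prod (pois q)) (E₁ ×ˢ E₂) := (Measure.prod_prod _ _).symm
      _ ≤ _ := by
        refine measure_mono ?_
        rintro ⟨N₁, N₂⟩ ⟨hN1, hN2⟩
        exact h N₁ hN1 N₂ hN2
  calc a * a * b = b * (a * a) := mul_comm _ _
    _ ≤ b * pois (fun c => q c + q c) {N | b ≤ F N} := by gcongr
    _ ≤ ∫⁻ N, F N ∂(pois (fun c => q c + q c)) := mul_meas_ge_le_lintegral hFm b

theorem pf_GLU (hGUP : T_GUP) (hGBL : T_GBL) (hHLM : T_HLM) (hFAT : T_FAT) (hTWO : T_TWO)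
    (hADD : T_ADD) (hVOI : T_VOI) (hLME : T_LME) (hTRL : T_TRL) (hMUS : T_MUS)
    (hGTR : T_GTR) : T_GLU := by
  obtain ⟨C₀, hC1, hC⟩ := hGUP
  obtain ⟨c, M, hc⟩ := hGBL
  have hU : HGU C₀ := ⟨hC1, hC⟩
  have hB : HGB c M := hc
  obtain ⟨c₁, κ, hH⟩ := hHLM C₀ c M hU hB
  obtain ⟨c₃, hc3, hT⟩ := hTWO C₀ c κ M hU hB hH.2.1
  refine ⟨M + 2, by omega, fun ε hε => ?_⟩
  have hδ : 0 < ε / 3 := by positivity
  obtain ⟨a, ha, hF⟩ := hFAT C₀ c₁ κ M hU hB.2.1 hH (ε / 3) hδ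
  have hx : 0 < ((ε / 3 : ℝ≥0) : ℝ) * c₃ := by positivity
  have hb : 0 < 1 - Real.exp (-(((ε / 3 : ℝ≥0) : ℝ) * c₃)) := by
    have : Real.exp (-(((ε / 3 : ℝ≥0) : ℝ) * c₃)) < 1 := by
      rw [Real.exp_lt_one_iff]
      linarith
    linarith
  set b : ℝ := 1 - Real.exp (-(((ε / 3 : ℝ≥0) : ℝ) * c₃)) with hbdef
  refine ⟨min 1 (a * a * b), by positivity, min_le_left _ _, ?_⟩
  intro n z K₁ K₂ hn hK1 hK2 h1 h1' h2 h2'
  obtain ⟨x₁, hx1, hx1'⟩ := h1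
  obtain ⟨y₁, hy1, hy1'⟩ := h1'
  obtain ⟨x₂, hx2, hx2'⟩ := h2
  obtain ⟨y₂, hy2, hy2'⟩ := h2'
  have far : ∀ x y : V3, nm (x - z) ≤ 2 * n → 4 * n ≤ nm (y - z) → n ≤ nm (y - x) := by
    intro x y hx hy
    have h := nm_add_le (y - x) (x - z)
    have e : y - x + (x - z) = y - z := by abel
    rw [e] at h
    omega
  have F1 := hF n hn 1 (Or.inl rfl) K₁ x₁ hK1 hx1 ⟨y₁, hy1, far x₁ y₁ hx1' hy1'⟩
  have F2 := hF n hn (-1) (Or.inr rfl) K₂ x₂ hK2 hx2 ⟨y₂, hy2, far x₂ y₂ hx2' hy2'⟩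
  have key := three hADD ε {N | Lk z ((M + 2) * n) K₁ K₂ (sp N)} (hLME z ((M + 2) * n) K₁ K₂).1
    _ _ (ENNReal.ofReal a) (ENNReal.ofReal b) F1 F2 ?_
  · refine le_trans ?_ key
    rw [← ENNReal.ofReal_mul ha.le, ← ENNReal.ofReal_mul (by positivity)]
    exact ENNReal.ofReal_le_ofReal (min_le_right _ _)
  · rintro N₁ ⟨d₁, hd1⟩ N₂ ⟨d₂, hd2⟩
    obtain ⟨w₁, hw1⟩ := hd1.2.1
    obtain ⟨w₂, hw2⟩ := hd2.2.1
    have hs := sec_prob (δ := ε / 3) hVOI hMUS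
      (sec_mu hTRL hMUS hGTR hT hn hw1 hw2 hx1' hx2')
    refine hs.trans (measure_mono ?_)
    rintro N₃ ⟨d₃, ⟨hin, ⟨u₁, hu1, hu1'⟩, ⟨u₂, hu2, hu2'⟩⟩, hd3⟩
    have m1 : u₁ ∈ {x | x ∈ d₁ ∧ x - x₁ ∈ Rg 1 n} := by
      by_contra hh
      exact hu1' (hw1.1 _ hh)
    have m2 : u₂ ∈ {x | x ∈ d₂ ∧ x - x₂ ∈ Rg (-1) n} := by
      by_contra hh
      exact hu2' (hw2.1 _ hh)
    refine lk_of (S₁ := sp N₁) (S₂ := sp N₂) (S₃ := sp N₃) hd1 hd2 hx1' hx2' hd3 hin hu1 m1.1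
      hu2 m2.1 ?_ ?_ ?_
    · intro c hc
      have : 1 ≤ N₁ c := hc
      change 1 ≤ N₁ c + N₂ c + N₃ c
      omega
    · intro c hc
      have : 1 ≤ N₂ c := hc
      change 1 ≤ N₁ c + N₂ c + N₃ c
      omega
    · intro c hc
      have : 1 ≤ N₃ c := hc
      change 1 ≤ N₁ c + N₂ c + N₃ c
      omega

end Pool.Agent.H61.LP
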